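import Pool.Agent.helper5.PR.SpecX
import Pool.Agent.helper43.PR.S_FIN

/-!
# Project pr: (MP_a2a22c_al), module X-CRF: central quotients are residually finite
-/

set_option autoImplicit false

namespace Pool.Agent.PR

open Matrix

theorem X_CRF_ratM {n m : ℕ} (x : SLI n m)
    (h : ∀ i j, ratM x i j = (1 : Matrix (Fin n) (Fin n) ℚ) i j) : x = 1 := by
  apply Subtype.ext
  ext i j
  have h1 : (((x : Matrix (Fin n) (Fin n) (ZI m)) i j : ZI m) : ℚ) =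
      (1 : Matrix (Fin n) (Fin n) ℚ) i j := h i j
  have h2 : (((1 : Matrix (Fin n) (Fin n) (ZI m)) i j : ZI m) : ℚ) =
      (1 : Matrix (Fin n) (Fin n) ℚ) i j := by
    by_cases hij : i = j
    · subst hij
      rw [Matrix.one_apply_eq, Matrix.one_apply_eq]
      rfl
    · rw [Matrix.one_apply_ne hij, Matrix.one_apply_ne hij]
      rfl
  exact h1.trans h2.symm

theorem X_CRF_cast (u v : ℤ) (a b k : ℕ) (h : (u : ℚ) * (a : ℚ) = (k : ℚ) * ((v : ℚ) * (b : ℚ))) :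
    u * (a : ℤ) = (k : ℤ) * (v * (b : ℤ)) := by
  exact_mod_cast h

theorem X_CRF_k (hZI : S_ZI_stmt) (n m : ℕ) (hm : 1 ≤ m) (x : SLI n m) (hx : x ≠ 1) :
    ∃ k : ℕ, 1 ≤ k ∧ k.Coprime m ∧ ¬ CgI k x := by
  have h1 : ∃ i j, ratM x i j ≠ (1 : Matrix (Fin n) (Fin n) ℚ) i j := by
    by_contra hcon
    push Not at hcon
    exact hx (X_CRF_ratM x hcon)
  obtain ⟨i, j, hij⟩ := h1
  set z : ℚ := ratM x i j - (1 : Matrix (Fin n) (Fin n) ℚ) i j with hz
  have hz0 : z ≠ 0 := sub_ne_zero.2 hij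
  have hnum : z.num ≠ 0 := Rat.num_ne_zero.2 hz0
  have hnn : 1 ≤ z.num.natAbs := Nat.one_le_iff_ne_zero.2 (Int.natAbs_ne_zero.2 hnum)
  have hcop : (m * z.num.natAbs + 1).Coprime m := by
    simp
  refine ⟨m * z.num.natAbs + 1, Nat.le_add_left 1 _, hcop, ?_⟩
  intro hcg
  obtain ⟨a, ha⟩ := hcg i j
  rw [← hz] at ha
  obtain ⟨t, ht⟩ := (hZI m hm (a : ℚ)).1 a.2
  have h2 : (z.num : ℚ) * ((a : ℚ).den : ℚ) =
      ((m * z.num.natAbs + 1 : ℕ) : ℚ) * (((a : ℚ).num : ℚ) * (z.den : ℚ)) := by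
    have h3 : (z.num : ℚ) = z * z.den := (Rat.mul_den_eq_num z).symm
    have h4 : ((a : ℚ).num : ℚ) = (a : ℚ) * (a : ℚ).den := (Rat.mul_den_eq_num (a : ℚ)).symm
    rw [h3, h4]
    calc z * z.den * ((a : ℚ).den : ℚ)
        = (((m * z.num.natAbs + 1 : ℕ) : ℚ) * (a : ℚ)) * z.den * ((a : ℚ).den : ℚ) := by rw [← ha]
      _ = _ := by ring
  have h5 : z.num * ((a : ℚ).den : ℤ) =
      ((m * z.num.natAbs + 1 : ℕ) : ℤ) * ((a : ℚ).num * (z.den : ℤ)) := by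
    exact X_CRF_cast _ _ _ _ _ h2
  have h6 : ((m * z.num.natAbs + 1 : ℕ) : ℤ) ∣ z.num * ((a : ℚ).den : ℤ) := ⟨_, h5⟩
  have h7 : (m * z.num.natAbs + 1) ∣ z.num.natAbs * (a : ℚ).den := by
    have := Int.natAbs_dvd_natAbs.2 h6
    rw [Int.natAbs_mul, Int.natAbs_natCast, Int.natAbs_natCast] at this
    exact this
  have h8 : (m * z.num.natAbs + 1).Coprime (a : ℚ).den :=
    Nat.Coprime.coprime_dvd_right ht (Nat.Coprime.pow_right t hcop)
  have h9 : (m * z.num.natAbs + 1) ∣ z.num.natAbs := h8.dvd_of_dvd_mul_right h7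
  have h10 := Nat.le_of_dvd hnn h9
  have h11 : z.num.natAbs ≤ m * z.num.natAbs := Nat.le_mul_of_pos_left _ hm
  omega

theorem X_CRF_fin (n k : ℕ) (hk : 1 ≤ k) : Finite (SLd n k) := by
  have : NeZero k := ⟨by omega⟩
  have : Finite (Matrix (Fin n) (Fin n) (ZMod k)) := inferInstance
  exact Subtype.finite

theorem X_CRF_ker {G K : Type} [Group G] [Group K] [Finite K] (f : G →* K) : f.ker.index ≠ 0 := by
  rw [Subgroup.index_ker]
  exact Nat.card_pos.ne'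

theorem X_CRF_RFG (hRED : X_RED_stmt) (hZI : S_ZI_stmt) (n m d : ℕ) (hm : 1 ≤ m) (hd : 1 ≤ d)
    (y : SLI n m × SLd n d) (hy : y ≠ 1) :
    ∃ H : Subgroup (SLI n m × SLd n d), H.index ≠ 0 ∧ y ∉ H := by
  by_cases h1 : y.1 = 1
  · have h2 : y.2 ≠ 1 := by
      intro h2
      exact hy (Prod.ext h1 h2)
    have := X_CRF_fin n d hd
    refine ⟨(MonoidHom.snd (SLI n m) (SLd n d)).ker, X_CRF_ker _, ?_⟩
    intro h3
    exact h2 h3
  · obtain ⟨k, hk, hkm, hC⟩ := X_CRF_k hZI n m hm y.1 h1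
    obtain ⟨r, -, hr⟩ := hRED n m k hm hk hkm
    have := X_CRF_fin n k hk
    refine ⟨(r.comp (MonoidHom.fst (SLI n m) (SLd n d))).ker, X_CRF_ker _, ?_⟩
    intro h3
    exact hC ((hr y.1).1 h3)

theorem X_CRF_center (n m d : ℕ) (hd : 1 ≤ d) :
    (Subgroup.center (SLI n m × SLd n d) : Set (SLI n m × SLd n d)).Finite := by
  have h1 := S_FIN_center n m
  have h2 := X_CRF_fin n d hd
  have h3 : ((Subgroup.center (SLI n m) : Set (SLI n m)) ×ˢ (Set.univ : Set (SLd n d))).Finite :=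
    (Set.toFinite _).prod (Set.toFinite _)
  refine h3.subset ?_
  intro z hz
  refine ⟨?_, Set.mem_univ _⟩
  have hz' := Subgroup.mem_center_iff.1 hz
  refine Subgroup.mem_center_iff.2 ?_
  intro g
  have h4 := hz' (g, 1)
  exact congrArg Prod.fst h4

theorem X_CRF (hRED : X_RED_stmt) (hZI : S_ZI_stmt) : X_CRF_stmt := by
  intro n hn m d hm hd L _ Φ hΦ hC g hg
  obtain ⟨x₀, rfl⟩ := hΦ g
  have hfin : (Φ.ker : Set (SLI n m × SLd n d)).Finite := (X_CRF_center n m d hd).subset hC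
  have hex : ∀ c : SLI n m × SLd n d, ∃ H : Subgroup (SLI n m × SLd n d),
      H.index ≠ 0 ∧ (c ∈ Φ.ker → c * x₀ ∉ H) := by
    intro c
    by_cases hc : c ∈ Φ.ker
    · have h1 : c * x₀ ≠ 1 := by
        intro h1
        apply hg
        have h2 := congrArg Φ h1
        rw [map_mul, map_one, (hc : Φ c = 1), one_mul] at h2
        exact h2
      obtain ⟨H, hH1, hH2⟩ := X_CRF_RFG hRED hZI n m d hm hd _ h1
      exact ⟨H, hH1, fun _ => hH2⟩
    · exact ⟨⊤, by simp, fun h => absurd h hc⟩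
  choose H hH1 hH2 using hex
  have hfin' : Finite Φ.ker := hfin.to_subtype
  let N : Subgroup (SLI n m × SLd n d) := ⨅ c : Φ.ker, H c
  have hN : N.index ≠ 0 := by
    have : ∀ c : Φ.ker, (H c).FiniteIndex := fun c => ⟨hH1 c⟩
    have h2 : N.FiniteIndex := Subgroup.finiteIndex_iInf this
    exact h2.index_ne_zero
  refine ⟨N.map Φ, ?_, ?_⟩
  · intro h0
    have h1 := Subgroup.index_map_dvd N hΦ
    rw [h0, zero_dvd_iff] at h1
    exact hN h1
  · rintro ⟨y, hy, hyx⟩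
    have hc : y * x₀⁻¹ ∈ Φ.ker := by
      rw [MonoidHom.mem_ker, map_mul, map_inv, hyx, mul_inv_cancel]
    have h2 := hH2 (y * x₀⁻¹) hc
    apply h2
    rw [inv_mul_cancel_right]
    exact (Subgroup.mem_iInf.1 hy) ⟨y * x₀⁻¹, hc⟩

end Pool.Agent.PR
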